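import Pool.Agent.L7h58.BP.Stm
import Pool.Agent.Helper256.KM.Mertens

/-! Project BP, part HTT (helper16), an adaptation of `Pool/Agent/L7h46/AM/Wom.lean`. -/

set_option autoImplicit false

namespace Pool.Agent.L7h16.BP

open Finset Pool.Agent.L7h58.BP

/-- the Euler product bound -/
lemma euler (g : ℕ → ℝ) (g0 : ∀ n, 0 ≤ g n) (g1 : g 1 = 1)
    (gm : ∀ m n, Nat.Coprime m n → g (m * n) = g m * g n)
    (gp : ∀ p k, p.Prime → 1 ≤ k → g (p ^ k) ≤ 2) (Y : ℕ) : ∑ m ∈ Icc 1 Y, g m / m ≤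
    ∏ p ∈ (Y + 1).primesBelow, (1 + g p / p + 4 / (p : ℝ) ^ 2) := by
  set f : ℕ → ℝ := fun m => g m / m with hf
  have hf1 : f 1 = 1 := by simp [hf, g1]
  have hmul : ∀ {m n : ℕ}, Nat.Coprime m n → f (m * n) = f m * f n := by
    intro m n h
    simp only [hf]
    rw [gm m n h]; push_cast; ring
  have hfpos : ∀ m, 0 ≤ f m := fun m => div_nonneg (g0 m) (Nat.cast_nonneg _)
  have hle' : ∀ p n : ℕ, p.Prime → f (p ^ n) ≤ 2 * (1 / p : ℝ) ^ n := fun p n hp => by
    simp only [hf]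
    rcases n with _ | n
    · simp [g1]
    · push_cast
      rw [one_div_pow, mul_one_div]
      exact div_le_div_of_nonneg_right (gp p (n + 1) hp (by omega)) (by positivity)
  have hgeo : ∀ {p : ℕ}, p.Prime → Summable (fun n : ℕ => (1 / p : ℝ) ^ n) := fun {p} hp =>
    summable_geometric_of_lt_one (by positivity) (by
      rw [div_lt_one (by exact_mod_cast hp.pos)]; exact_mod_cast hp.one_lt)
  have hsum : ∀ {p : ℕ}, p.Prime → Summable (fun n : ℕ => ‖f (p ^ n)‖) := fun {p} hp => by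
    refine Summable.of_nonneg_of_le (fun n => norm_nonneg _) (fun n => ?_) ((hgeo hp).mul_left 2)
    rw [Real.norm_of_nonneg (hfpos _)]
    exact hle' p n hp
  obtain ⟨hs, hh'⟩ := EulerProduct.summable_and_hasSum_smoothNumbers_prod_primesBelow_tsum
    hf1 hmul hsum (Y + 1)
  have hprod : ∏ p ∈ (Y + 1).primesBelow, ∑' n : ℕ, f (p ^ n) ≤
      ∏ p ∈ (Y + 1).primesBelow, (1 + g p / p + 4 / (p : ℝ) ^ 2) := by
    refine Finset.prod_le_prod (fun p _ => tsum_nonneg fun n => hfpos _) (fun p hp => ?_)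
    have hpp : p.Prime := Nat.prime_of_mem_primesBelow hp
    have hp2 : (2 : ℝ) ≤ p := by exact_mod_cast hpp.two_le
    have hsp : Summable (fun n : ℕ => f (p ^ n)) := (hsum hpp).of_norm
    rw [hsp.tsum_eq_zero_add, ((summable_nat_add_iff 1).mpr hsp).tsum_eq_zero_add]
    have h2 : ∑' n : ℕ, f (p ^ (n + 1 + 1)) ≤ 4 / (p : ℝ) ^ 2 := by
      have hs2 : Summable (fun n : ℕ => f (p ^ (n + 1 + 1))) :=
        (summable_nat_add_iff (f := fun n : ℕ => f (p ^ (n + 1))) 1).mpr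
          ((summable_nat_add_iff (f := fun n : ℕ => f (p ^ n)) 1).mpr hsp)
      have hg := hgeo hpp
      have h3 : ∑' n : ℕ, f (p ^ (n + 1 + 1)) ≤
          ∑' n : ℕ, 2 * (1 / p : ℝ) ^ 2 * (1 / p : ℝ) ^ n := by
        refine hs2.tsum_le_tsum (fun n => ?_) (hg.mul_left _)
        refine (hle' p _ hpp).trans (le_of_eq ?_)
        ring
      refine h3.trans ?_
      rw [tsum_mul_left, tsum_geometric_of_lt_one (by positivity) (by
        rw [div_lt_one (by linarith)]; linarith)]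
      have h4 : (1 - 1 / (p : ℝ))⁻¹ ≤ 2 := by
        rw [inv_le_comm₀ (by
          have : 1 / (p : ℝ) ≤ 1 / 2 := one_div_le_one_div_of_le (by norm_num) hp2
          linarith) (by norm_num)]
        have : 1 / (p : ℝ) ≤ 1 / 2 := one_div_le_one_div_of_le (by norm_num) hp2
        norm_num at this ⊢
        linarith
      calc 2 * (1 / (p : ℝ)) ^ 2 * (1 - 1 / (p : ℝ))⁻¹ ≤ 2 * (1 / (p : ℝ)) ^ 2 * 2 :=
            mul_le_mul_of_nonneg_left h4 (by positivity)
        _ = 4 / (p : ℝ) ^ 2 := by rw [one_div_pow]; ring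
    have e0 : f (p ^ 0) = 1 := by rw [pow_zero]; exact hf1
    have e1 : f (p ^ (0 + 1)) = g p / p := by
      simp only [hf]
      rw [zero_add, pow_one]
    rw [e0, e1]
    linarith
  refine le_trans ?_ hprod
  rw [← hh'.tsum_eq]
  have hsm : Summable (fun m : (Y + 1).smoothNumbers => f m) := hh'.summable
  have hinj : ∀ m ∈ Icc 1 Y, m ∈ (Y + 1).smoothNumbers := fun m hm => by
    obtain ⟨h1, h2⟩ := Finset.mem_Icc.mp hm
    exact Nat.mem_smoothNumbers_of_lt (by omega) (by omega)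
  let S : Finset (Y + 1).smoothNumbers := (Icc 1 Y).subtype (fun m => m ∈ (Y + 1).smoothNumbers)
  have hS : ∑ m ∈ S, f m = ∑ m ∈ Icc 1 Y, f m := by
    rw [Finset.sum_subtype_of_mem f hinj]
  rw [← hS]
  exact hsm.sum_le_tsum S (fun m _ => hfpos _)

lemma om_mul {w m n : ℕ} (h : Nat.Coprime m n) : om w (m * n) = om w m + om w n := by
  unfold om
  rw [Nat.Coprime.primeFactors_mul h, Finset.filter_union, Finset.card_union_of_disjoint]
  exact Finset.disjoint_filter_filter h.disjoint_primeFactors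

/-- the multiplicative function -/
noncomputable def ff (w n : ℕ) : ℝ := (3 / 4 : ℝ) ^ (om w n) * ((n : ℝ) / Nat.totient n)

lemma ff_nonneg (w n : ℕ) : 0 ≤ ff w n := by unfold ff; positivity

lemma ff_one (w : ℕ) : ff w 1 = 1 := by simp [ff, om]

lemma ff_mul (w m n : ℕ) (h : Nat.Coprime m n) : ff w (m * n) = ff w m * ff w n := by
  unfold ff
  rw [om_mul h, Nat.totient_mul h, pow_add]
  push_cast
  rw [mul_div_mul_comm]
  ring

lemma tot_pp {p k : ℕ} (hp : p.Prime) (hk : 1 ≤ k) :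
    ((p ^ k : ℕ) : ℝ) / Nat.totient (p ^ k) = p / (p - 1) := by
  have hp0 : (0 : ℝ) < p := by exact_mod_cast hp.pos
  rw [Nat.totient_prime_pow hp (by omega)]
  push_cast [Nat.cast_sub hp.one_lt.le]
  obtain ⟨k, rfl⟩ : ∃ j, k = j + 1 := ⟨k - 1, by omega⟩
  rw [Nat.add_sub_cancel, pow_succ, mul_div_mul_left _ _ (by positivity)]

lemma om_le_one {w p k : ℕ} (hp : p.Prime) : om w (p ^ k) ≤ 1 := by
  unfold om
  calc ((p ^ k).primeFactors.filter fun q => w < q).card ≤ ({p} : Finset ℕ).card := by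
        apply Finset.card_le_card
        intro q hq
        rw [Finset.mem_filter] at hq
        have h1 := Nat.dvd_of_mem_primeFactors hq.1
        have h2 := Nat.prime_of_mem_primeFactors hq.1
        rw [Finset.mem_singleton]
        exact (Nat.prime_dvd_prime_iff_eq h2 hp).1 (h2.dvd_of_dvd_pow h1)
    _ = 1 := Finset.card_singleton p

lemma div_pred_le {p : ℕ} (hp : p.Prime) : (p : ℝ) / (p - 1) ≤ 2 := by
  have hp2 : (2 : ℝ) ≤ p := by exact_mod_cast hp.two_le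
  rw [div_le_iff₀ (by linarith)]
  linarith

lemma ff_pp (w p k : ℕ) (hp : p.Prime) (hk : 1 ≤ k) : ff w (p ^ k) ≤ 2 := by
  unfold ff
  rw [tot_pp hp hk]
  have h1 : (3 / 4 : ℝ) ^ (om w (p ^ k)) ≤ 1 := pow_le_one₀ (by norm_num) (by norm_num)
  have h2 := div_pred_le hp
  have hp2 : (2 : ℝ) ≤ p := by exact_mod_cast hp.two_le
  have h3 : 0 ≤ (p : ℝ) / (p - 1) := div_nonneg (by linarith) (by linarith)
  nlinarith [pow_nonneg (show (0:ℝ) ≤ 3 / 4 by norm_num) (om w (p ^ k))]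

lemma ff_prime_div (w p : ℕ) (hp : p.Prime) :
    ff w p / p ≤ 3 / 4 * (1 / p) + (if p ≤ w then 1 else 0) + 2 / (p : ℝ) ^ 2 := by
  have hp2 : (2 : ℝ) ≤ p := by exact_mod_cast hp.two_le
  have hp0 : (0 : ℝ) < p := by linarith
  have h1 : ff w p = (3 / 4 : ℝ) ^ (om w p) * (p / (p - 1)) := by
    have := tot_pp hp le_rfl
    rw [pow_one] at this
    unfold ff
    rw [this]
  have h2 : ff w p / p = (3 / 4 : ℝ) ^ (om w p) * (1 / (p - 1)) := by
    rw [h1]; field_simp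
  have h3 : (1 : ℝ) / (p - 1) ≤ 1 / p + 2 / (p : ℝ) ^ 2 := by
    rw [div_add_div _ _ hp0.ne' (by positivity), div_le_div_iff₀ (by linarith) (by positivity)]
    nlinarith [mul_nonneg hp0.le (show (0:ℝ) ≤ p - 2 by linarith)]
  have h4 : (0 : ℝ) < 1 / p := by positivity
  have h5 : (1 : ℝ) / p ≤ 1 / 2 := one_div_le_one_div_of_le (by norm_num) hp2
  have h6 : (0 : ℝ) < 2 / (p : ℝ) ^ 2 := by positivity
  have h7 : (0 : ℝ) < 1 / (p - 1) := by
    have : (0 : ℝ) < (p : ℝ) - 1 := by linarith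
    positivity
  rw [h2]
  by_cases hw : p ≤ w
  · rw [if_pos hw]
    have h8 : (3 / 4 : ℝ) ^ (om w p) ≤ 1 := pow_le_one₀ (by norm_num) (by norm_num)
    nlinarith
  · rw [if_neg hw]
    have h8 : om w p = 1 := by
      unfold om
      rw [hp.primeFactors, Finset.filter_singleton, if_pos (by omega), Finset.card_singleton]
    rw [h8, pow_one]
    nlinarith

lemma harm (w Y : ℕ) : ∑ m ∈ Icc 1 Y, ff w m / m ≤
    Real.exp (3 / 4 * ∑ p ∈ (Icc 1 Y).filter Nat.Prime, (1 : ℝ) / p + (w + 1 : ℝ) +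
      6 * ∑' n : ℕ, 1 / (n : ℝ) ^ 2) := by
  refine (euler (ff w) (ff_nonneg w) (ff_one w) (ff_mul w) (ff_pp w) Y).trans ?_
  have h1 : ∏ p ∈ (Y + 1).primesBelow, (1 + ff w p / p + 4 / (p : ℝ) ^ 2) ≤
      ∏ p ∈ (Y + 1).primesBelow,
        Real.exp (3 / 4 * (1 / p) + (if p ≤ w then 1 else 0) + 6 / (p : ℝ) ^ 2) := by
    refine Finset.prod_le_prod (fun p _ => ?_) (fun p hp => ?_)
    · have := ff_nonneg w p
      positivity
    · have h2 := Real.add_one_le_exp (3 / 4 * (1 / (p : ℝ)) + (if p ≤ w then 1 else 0) + 6 / (p : ℝ) ^ 2)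
      have h3 := ff_prime_div w p (Nat.prime_of_mem_primesBelow hp)
      have h4 : (6 : ℝ) / (p : ℝ) ^ 2 = 2 / (p : ℝ) ^ 2 + 4 / (p : ℝ) ^ 2 := by ring
      linarith
  refine h1.trans ?_
  have hb : (Y + 1).primesBelow = (Icc 1 Y).filter Nat.Prime := by
    ext p
    simp only [Nat.mem_primesBelow, Finset.mem_filter, Finset.mem_Icc]
    constructor
    · rintro ⟨h1, h2⟩
      exact ⟨⟨h2.one_lt.le, by omega⟩, h2⟩
    · rintro ⟨⟨h1, h2⟩, h3⟩
      exact ⟨by omega, h3⟩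
  rw [← Real.exp_sum, Real.exp_le_exp, Finset.sum_add_distrib, Finset.sum_add_distrib]
  have hs : Summable (fun n : ℕ => 1 / (n : ℝ) ^ 2) := Real.summable_one_div_nat_pow.2 (by norm_num)
  have h2 : ∑ p ∈ (Y + 1).primesBelow, 6 / (p : ℝ) ^ 2 ≤ 6 * ∑' n : ℕ, 1 / (n : ℝ) ^ 2 := by
    have h3 := hs.sum_le_tsum (Y + 1).primesBelow (fun n _ => by positivity)
    have h4 : ∑ p ∈ (Y + 1).primesBelow, 6 / (p : ℝ) ^ 2 =
        6 * ∑ p ∈ (Y + 1).primesBelow, 1 / (p : ℝ) ^ 2 := by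
      rw [Finset.mul_sum]
      exact Finset.sum_congr rfl fun p _ => by ring
    rw [h4]
    linarith
  have h5 : ∑ p ∈ (Y + 1).primesBelow, 3 / 4 * (1 / (p : ℝ)) =
      3 / 4 * ∑ p ∈ (Icc 1 Y).filter Nat.Prime, (1 : ℝ) / p := by
    rw [hb, Finset.mul_sum]
  have h6 : ∑ p ∈ (Y + 1).primesBelow, (if p ≤ w then (1 : ℝ) else 0) ≤ w + 1 := by
    rw [← Finset.sum_filter, Finset.sum_const, nsmul_eq_mul, mul_one]
    have : ((Y + 1).primesBelow.filter fun p => p ≤ w).card ≤ (range (w + 1)).card := by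
      apply Finset.card_le_card
      intro p hp
      rw [Finset.mem_filter] at hp
      rw [Finset.mem_range]; omega
    rw [Finset.card_range] at this
    exact_mod_cast this
  rw [h5]
  linarith

theorem s_HTT (hA : S_HTA) : S_HTT := by
  obtain ⟨K0, hK0, hA⟩ := hA
  intro w
  obtain ⟨C2, hC2⟩ := Pool.Agent.Helper256.KM.mertens_inv
  set K : ℝ := (w + 1 : ℝ) + 6 * ∑' n : ℕ, 1 / (n : ℝ) ^ 2 with hK
  refine ⟨K0 * Real.exp (3 / 4 * C2 + K) + 2, by positivity, fun X hX => ?_⟩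
  have hX0 : (0 : ℝ) < X := by exact_mod_cast (by omega : 0 < X)
  have hlog : 0 < Real.log X := Real.log_pos (by exact_mod_cast (by omega : 1 < X))
  have hpow : 0 < Real.log X ^ (-(1 / 4 : ℝ)) := Real.rpow_pos_of_pos hlog _
  show ∑ n ∈ Icc 1 X, ff w n ≤ _
  rcases Nat.lt_or_ge X 3 with h3 | h3
  · have hX2 : X = 2 := by omega
    subst hX2
    have e : Icc 1 2 = ({1, 2} : Finset ℕ) := by decide
    have h4 := ff_pp w 2 1 Nat.prime_two le_rfl
    rw [pow_one] at h4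
    have h5 : (1 : ℝ) ≤ Real.log (2 : ℕ) ^ (-(1 / 4 : ℝ)) := by
      apply Real.one_le_rpow_of_pos_of_le_one_of_nonpos hlog _ (by norm_num)
      have := Real.log_le_sub_one_of_pos (show (0 : ℝ) < (2 : ℕ) by norm_num)
      norm_num at this ⊢
      linarith
    rw [e, Finset.sum_pair (by norm_num), ff_one]
    have h6 : 0 ≤ K0 * Real.exp (3 / 4 * C2 + K) := by positivity
    have h7 : (4 : ℝ) ≤ (K0 * Real.exp (3 / 4 * C2 + K) + 2) * (2 : ℕ) := by
      push_cast; linarith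
    nlinarith
  · have hM := (abs_le.mp (hC2 X h3)).2
    have hall := hA (ff w) (ff_nonneg w) (ff_one w) (ff_mul w) (ff_pp w) X hX
    have hharm := harm w X
    have h5 : ∑ m ∈ Icc 1 X, ff w m / m ≤
        Real.exp (3 / 4 * C2 + K) * Real.log X ^ (3 / 4 : ℝ) := by
      refine hharm.trans ?_
      rw [Real.rpow_def_of_pos hlog, ← Real.exp_add, Real.exp_le_exp]
      nlinarith
    have e : Real.log X ^ (3 / 4 : ℝ) / Real.log X = Real.log X ^ (-(1 / 4 : ℝ)) := by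
      rw [← Real.rpow_sub_one hlog.ne']
      norm_num
    calc ∑ n ∈ Icc 1 X, ff w n ≤ K0 * X / Real.log X * ∑ m ∈ Icc 1 X, ff w m / m := hall
      _ ≤ K0 * X / Real.log X * (Real.exp (3 / 4 * C2 + K) * Real.log X ^ (3 / 4 : ℝ)) :=
          mul_le_mul_of_nonneg_left h5 (by positivity)
      _ = K0 * Real.exp (3 / 4 * C2 + K) * X * (Real.log X ^ (3 / 4 : ℝ) / Real.log X) := by
          ring
      _ = K0 * Real.exp (3 / 4 * C2 + K) * X * Real.log X ^ (-(1 / 4 : ℝ)) := by rw [e]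
      _ ≤ (K0 * Real.exp (3 / 4 * C2 + K) + 2) * X * Real.log X ^ (-(1 / 4 : ℝ)) := by
          apply mul_le_mul_of_nonneg_right _ hpow.le
          apply mul_le_mul_of_nonneg_right _ hX0.le
          linarith

end Pool.Agent.L7h16.BP
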